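import Pool.Agent.R489.HB.Stm

set_option autoImplicit false

open Finset Pool.Agent.R489.HB

namespace Pool.Agent.R984.HB

variable {W : Type} [DecidableEq W]

theorem mem_edg {Φ : Finset (Finset W)} {e : Finset W} :
    e ∈ edg Φ ↔ ∃ f ∈ Φ, e ⊆ f ∧ e.card = 2 := by
  simp only [edg, Finset.mem_biUnion, Finset.mem_powersetCard]

omit [DecidableEq W] in
theorem mono_pair {a : W → Fin 3} {T e1 e2 : Finset W} (hT : T.card = 3) (h1 : e1 ⊆ T)
    (h2 : e2 ⊆ T) (c1 : e1.card = 2) (c2 : e2.card = 2) (m1 : mono a e1) (m2 : mono a e2)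
    (hm : ¬ mono a T) : e1 = e2 := by
  classical
  by_contra hne
  apply hm
  have hU : e1 ∪ e2 = T := by
    apply Finset.eq_of_subset_of_card_le (Finset.union_subset h1 h2)
    rw [hT]
    by_contra hlt
    push Not at hlt
    have h3 : e1 ∪ e2 = e1 := by
      symm
      apply Finset.eq_of_subset_of_card_le Finset.subset_union_left
      omega
    have h4 : e2 ⊆ e1 := by rw [← h3]; exact Finset.subset_union_right
    exact hne (Finset.eq_of_subset_of_card_le h4 (by omega)).symm
  have hI : (e1 ∩ e2).Nonempty := by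
    rw [← Finset.card_pos]
    have := Finset.card_union_add_card_inter e1 e2
    rw [hU, hT, c1, c2] at this
    omega
  obtain ⟨z, hz⟩ := hI
  rw [Finset.mem_inter] at hz
  have key : ∀ x ∈ T, a x = a z := by
    intro x hx
    rw [← hU, Finset.mem_union] at hx
    rcases hx with hx | hx
    · exact m1 x hx z hz.1
    · exact m2 x hx z hz.2
  intro x hx y hy
  rw [key x hx, key y hy]

theorem ind_indep {e1 e2 : Finset W} (hne : e1 ≠ e2) (h1 : e1.Nonempty) (h2 : e2.Nonempty) :
    LinearIndepOn (ZMod 2) ind ({e1, e2} : Set (Finset W)) := by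
  have hne1 : ∃ x, x ∈ e1 ∧ x ∉ e2 ∨ x ∈ e2 ∧ x ∉ e1 := by
    by_contra hcon
    push Not at hcon
    apply hne
    ext x
    exact ⟨fun h => (hcon x).1 h, fun h => (hcon x).2 h⟩
  rw [LinearIndepOn.pair_iff ind hne]
  intro c d hcd
  have hz : ∀ c : ZMod 2, c = 0 ∨ c = 1 := by decide
  have hx : ∀ x, c * ind e1 x + d * ind e2 x = 0 := fun x => congrFun hcd x
  obtain ⟨x1, hx1⟩ := h1
  obtain ⟨x2, hx2⟩ := h2
  have k1 := hx x1
  have k2 := hx x2
  obtain ⟨x, hxx⟩ := hne1
  have k3 := hx x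
  simp only [ind, hx1, hx2, if_true, mul_one] at k1 k2
  rcases hz c with rfl | rfl <;> rcases hz d with rfl | rfl
  · exact ⟨rfl, rfl⟩
  · simp at k2
  · simp at k1
  · exfalso
    rcases hxx with ⟨a1, a2⟩ | ⟨a1, a2⟩
    · simp [ind, a1, a2] at k3
    · simp [ind, a1, a2] at k3

theorem FCD (hC : S_CONE) : S_FCD := by
  intro W _ Φ T a v y1 y2 z1 z2 hΦ hT h5 hmono hTm D
  have hvy1 : v ≠ y1 := fun h => D.vy (by rw [h])
  have hvy2 : v ≠ y2 := fun h => D.vy (by rw [h, D.ay])
  have hvz1 : v ≠ z1 := fun h => D.vz (by rw [h])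
  have hvz2 : v ≠ z2 := fun h => D.vz (by rw [h, D.az])
  have hy1z1 : y1 ≠ z1 := fun h => D.yz (by rw [h])
  have hy1z2 : y1 ≠ z2 := fun h => D.yz (by rw [h, D.az])
  have hy2z1 : y2 ≠ z1 := fun h => D.yz (by rw [D.ay, h])
  have hy2z2 : y2 ≠ z2 := fun h => D.yz (by rw [D.ay, h, D.az])
  have hface : ∀ f ∈ Φ, v ∈ f → f = {v, y1, z1} ∨ f = {v, y1, z2} ∨ f = {v, y2, z1} ∨
      f = {v, y2, z2} := by
    intro f hf hv
    have : f ∈ fc Φ {v} := by
      simp only [fc, Finset.mem_filter, Finset.singleton_subset_iff]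
      exact ⟨hf, hv⟩
    rw [D.faces] at this
    simpa using this
  have hin : ∀ f, f ∈ ({{v, y1, z1}, {v, y1, z2}, {v, y2, z1}, {v, y2, z2}} :
      Finset (Finset W)) → f ∈ Φ := by
    intro f hf
    rw [← D.faces] at hf
    exact (Finset.mem_filter.1 hf).1
  have hf1 : ({v, y1, z1} : Finset W) ∈ Φ := hin _ (by simp)
  have hf2 : ({v, y1, z2} : Finset W) ∈ Φ := hin _ (by simp)
  have hnb : ∀ w, w ≠ v → ({v, w} : Finset W) ∈ edg Φ → w = y1 ∨ w = y2 ∨ w = z1 ∨ w = z2 := by
    intro w hw he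
    obtain ⟨f, hf, hsub, -⟩ := mem_edg.1 he
    have hvf : v ∈ f := hsub (by simp)
    have hwf : w ∈ f := hsub (by simp)
    rcases hface f hf hvf with rfl | rfl | rfl | rfl <;>
    · simp only [Finset.mem_insert, Finset.mem_singleton] at hwf
      tauto
  have huv : ({y1, v} : Finset W) ∈ edg Φ := by
    refine mem_edg.2 ⟨_, hf1, ?_, Finset.card_pair (Ne.symm hvy1)⟩
    intro x hx
    simp only [Finset.mem_insert, Finset.mem_singleton] at hx ⊢
    tauto
  have hGood : Good Φ y1 v := by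
    intro w hw1 hwv he1 he2
    rcases hnb w hwv he2 with h | h | h | h
    · exact absurd h hw1
    · subst h; exact absurd he1 D.non
    · subst h
      rw [Finset.insert_comm]; exact hf1
    · subst h
      rw [Finset.insert_comm]; exact hf2
  obtain ⟨-, hedg⟩ := hC W Φ y1 v hΦ (Ne.symm hvy1) huv hGood h5
  have hclass : ∀ e' ∈ edg (contr y1 v Φ), mono a e' →
      (e' ∈ edg Φ ∧ e' ⊆ T) ∨ e' = {y1, y2} := by
    intro e' he' hm
    rw [hedg, Finset.mem_image] at he'
    obtain ⟨e, he, rfl⟩ := he'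
    rw [Finset.mem_erase] at he
    by_cases hve : v ∈ e
    · right
      obtain ⟨f, hf, hsub, hc2⟩ := mem_edg.1 he.2
      obtain ⟨w, hw⟩ : ∃ w, e.erase v = {w} := by
        rw [← Finset.card_eq_one, Finset.card_erase_of_mem hve, hc2]
      have hwv : w ≠ v := by
        have : w ∈ e.erase v := by rw [hw]; simp
        exact (Finset.mem_erase.1 this).1
      have hee : e = {v, w} := by rw [← Finset.insert_erase hve, hw]
      have hmv : mv y1 v e = {y1, w} := by
        simp only [mv, hve, if_true, hw]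
      rw [hmv] at hm ⊢
      have haw : a y1 = a w := hm y1 (by simp) w (by simp)
      rw [hee] at he
      rcases hnb w hwv he.2 with h | h | h | h
      · exfalso
        apply he.1
        rw [h, Finset.pair_comm]
      · rw [h]
      · exfalso; rw [h] at haw; exact D.yz haw
      · exfalso; rw [h, ← D.az] at haw; exact D.yz haw
    · left
      have hmv : mv y1 v e = e := by simp only [mv, hve, if_false]
      rw [hmv] at hm ⊢
      exact ⟨he.2, hmono e he.2 hm⟩
  have hT3 : T.card = 3 := hΦ.three T hT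
  have hyc : ({y1, y2} : Finset W).card = 2 := Finset.card_pair D.hy
  have hnon := D.non
  unfold FC
  by_cases hex : ∃ e1 ∈ edg Φ, e1 ⊆ T ∧ mono a e1
  · obtain ⟨e1, he1, hs1, hm1⟩ := hex
    have hc1 : e1.card = 2 := (mem_edg.1 he1).choose_spec.2.2
    have hne : e1 ≠ {y1, y2} := fun h => hnon (by rw [← h]; exact he1)
    refine (ind_indep hne (Finset.card_pos.1 (by omega)) (Finset.card_pos.1 (by omega))).mono ?_
    rintro e' ⟨he', hm'⟩
    rcases hclass e' he' hm' with h | h
    · left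
      exact mono_pair hT3 h.2 hs1 (mem_edg.1 h.1).choose_spec.2.2 hc1 hm' hm1 hTm
    · right; exact h
  · have hne : (∅ : Finset W) ≠ {y1, y2} := (Finset.insert_ne_empty _ _).symm
    have hsub : {e : Finset W | e ∈ edg (contr y1 v Φ) ∧ mono a e} ⊆ {{y1, y2}} := by
      rintro e' ⟨he', hm'⟩
      rcases hclass e' he' hm' with h | h
      · exact absurd ⟨e', h.1, h.2, hm'⟩ hex
      · exact h
    refine LinearIndepOn.mono ?_ hsub
    have hz1 : v ∉ ({y1, y2} : Finset W) := by
      simp only [Finset.mem_insert, Finset.mem_singleton, not_or]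
      exact ⟨hvy1, hvy2⟩
    have h2 := ind_indep (e1 := {v}) (e2 := {y1, y2})
      (fun h => hz1 (by rw [← h]; simp)) (by simp) (by simp)
    exact h2.mono (by intro x hx; right; exact hx)

end Pool.Agent.R984.HB
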